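import Pool.Agent.Lib.MP_33d9ce_co.Cst.Ifc

/-!
# Spanning hypercubes, constant density: the matching

Hall's condition for a set `Z` of odd vertices.  Put `b M = |C(Z) ∩ B|` and `a M = |C(Z) ∩ (A ∖ Φ)|`, where `B` is the
complement of `A`.  The rare members of `Z` are at most `min (b / 1000, 1 - μ + e) M`.  The rows of the other members
live on quadruples of labels in `C(Z)`, so that there are at most `(μ β ^ 2 α ^ 2 + e) M` of them, with
`β = 16 b / 15` and `α = 16 (1 + a) / 17`.  For small `b` the sum of inverse squares is used instead, and for almost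
full `C(Z)` the lower bound of the degrees of the targets.
-/

set_option autoImplicit false

noncomputable section

open Classical Finset

namespace Pool.Agent.Lib.MP_33d9ce_co.Cst

/-- Cauchy–Schwarz: a set of labels gets its share up to `E` -/
private theorem hm_cs {W : Type} [Fintype W] (K : W → ℝ) (c E : ℝ) (hE : 0 ≤ E)
    (hK : ∑ w, (K w - c) ^ 2 ≤ E ^ 2 * (Fintype.card W : ℝ)⁻¹) (s : Finset W) :
    |∑ w ∈ s, K w - s.card * c| ≤ E := by
  have hx : (s.card : ℝ) * (Fintype.card W : ℝ)⁻¹ ≤ 1 := by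
    rcases isEmpty_or_nonempty W with hW | hW
    · have : s.card = 0 := by
        rw [Finset.card_eq_zero]; exact Finset.eq_empty_of_isEmpty s
      rw [this]; simp
    · have hc : (0 : ℝ) < Fintype.card W := by exact_mod_cast Fintype.card_pos
      have hs : (s.card : ℝ) ≤ Fintype.card W := by exact_mod_cast Finset.card_le_univ s
      rw [← div_eq_mul_inv, div_le_one hc]; exact hs
  have h1 : (∑ w ∈ s, (K w - c)) ^ 2 ≤ E ^ 2 := by
    calc (∑ w ∈ s, (K w - c)) ^ 2
        ≤ s.card * ∑ w ∈ s, (K w - c) ^ 2 := sq_sum_le_card_mul_sum_sq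
      _ ≤ s.card * ∑ w, (K w - c) ^ 2 := by
          refine mul_le_mul_of_nonneg_left ?_ (Nat.cast_nonneg _)
          exact Finset.sum_le_sum_of_subset_of_nonneg (Finset.subset_univ _)
            fun _ _ _ => sq_nonneg _
      _ ≤ s.card * (E ^ 2 * (Fintype.card W : ℝ)⁻¹) :=
          mul_le_mul_of_nonneg_left hK (Nat.cast_nonneg _)
      _ = E ^ 2 * ((s.card : ℝ) * (Fintype.card W : ℝ)⁻¹) := by ring
      _ ≤ E ^ 2 * 1 := mul_le_mul_of_nonneg_left hx (sq_nonneg _)
      _ = _ := by ring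
  have h2 := abs_le_of_sq_le_sq h1 hE
  rwa [Finset.sum_sub_distrib, Finset.sum_const, nsmul_eq_mul] at h2

/-- the labels inside `T` -/
private theorem hm_card {V : Type} [Fintype V] (A T : Finset V) :
    (((univ : Finset (Slack.Lab A)).filter fun w => (w.1.1 : V) ∈ T ∧ (w.1.2 : V) ∈ T ∧ (w.2.1 : V) ∈ T ∧
      (w.2.2 : V) ∈ T).card : ℝ) =
      ((T.filter (· ∉ A)).card : ℝ) ^ 2 * ((T.filter (· ∈ A)).card : ℝ) ^ 2 := by
  have h1 : (univ.filter fun v : {v // v ∉ A} => (v : V) ∈ T).card = (T.filter (· ∉ A)).card := by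
    refine Finset.card_bij (fun v _ => (v : V)) ?_ ?_ ?_
    · intro v hv
      rw [Finset.mem_filter] at hv ⊢
      exact ⟨hv.2, v.2⟩
    · intro v _ w _ h
      exact Subtype.ext h
    · intro v hv
      rw [Finset.mem_filter] at hv
      exact ⟨⟨v, hv.2⟩, by rw [Finset.mem_filter]; exact ⟨Finset.mem_univ _, hv.1⟩, rfl⟩
  have h2 : (univ.filter fun v : {v // v ∈ A} => (v : V) ∈ T).card = (T.filter (· ∈ A)).card := by
    refine Finset.card_bij (fun v _ => (v : V)) ?_ ?_ ?_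
    · intro v hv
      rw [Finset.mem_filter] at hv ⊢
      exact ⟨hv.2, v.2⟩
    · intro v _ w _ h
      exact Subtype.ext h
    · intro v hv
      rw [Finset.mem_filter] at hv
      exact ⟨⟨v, hv.2⟩, by rw [Finset.mem_filter]; exact ⟨Finset.mem_univ _, hv.1⟩, rfl⟩
  have h3 : ((univ : Finset (Slack.Lab A)).filter fun w => (w.1.1 : V) ∈ T ∧ (w.1.2 : V) ∈ T ∧ (w.2.1 : V) ∈ T ∧
      (w.2.2 : V) ∈ T) =
      ((univ.filter fun v : {v // v ∉ A} => (v : V) ∈ T) ×ˢ
        (univ.filter fun v : {v // v ∉ A} => (v : V) ∈ T)) ×ˢ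
      ((univ.filter fun v : {v // v ∈ A} => (v : V) ∈ T) ×ˢ
        (univ.filter fun v : {v // v ∈ A} => (v : V) ∈ T)) := by
    ext ⟨⟨b1, b2⟩, ⟨a1, a2⟩⟩
    rw [Finset.mem_product, Finset.mem_product, Finset.mem_product,
      Finset.mem_filter, Finset.mem_filter, Finset.mem_filter, Finset.mem_filter, Finset.mem_filter]
    have u1 := Finset.mem_univ b1
    have u2 := Finset.mem_univ b2
    have u3 := Finset.mem_univ a1
    have u4 := Finset.mem_univ a2
    have u5 : ((b1, b2), (a1, a2)) ∈ (univ : Finset (Slack.Lab A)) := Finset.mem_univ _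
    tauto
  rw [h3, Finset.card_product, Finset.card_product, Finset.card_product, h1, h2]
  push_cast
  ring

/-- the elementary inequality of the middle range -/
private theorem hm_elem (a b μ e τ ρ : ℝ) (ha : 0 ≤ a) (ha' : a ≤ 1 / 16) (hb : 0 ≤ b) (hb' : b ≤ 15 / 16)
    (hμ : 1 - 1 / 1000 ≤ μ) (hμ1 : μ ≤ 1) (he : 1000 * e ≤ τ) (he' : 1000 * e ≤ ρ)
    (hb2 : 999 / 1000 * ρ ≤ b) (hab : a + b ≤ 1 - τ) :
    min (b / 1000) (1 - μ + e) + μ * ((16 * b / 15) ^ 2 * (16 * (1 + a) / 17) ^ 2) + e ≤ a + b := by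
  have hα0 : 0 ≤ 16 * (1 + a) / 17 := by positivity
  have hα1 : 16 * (1 + a) / 17 ≤ 1 := by linarith
  have hβ0 : 0 ≤ 16 * b / 15 := by positivity
  have hβ1 : 16 * b / 15 ≤ 1 := by linarith
  have hα2 : (16 * (1 + a) / 17) ^ 2 ≤ 1 := pow_le_one₀ hα0 hα1
  by_cases hc : 16 * b / 15 ≤ 1 / 2
  · have h1 : (16 * b / 15) ^ 2 ≤ 8 * b / 15 := by nlinarith
    have h2 : (16 * b / 15) ^ 2 * (16 * (1 + a) / 17) ^ 2 ≤ 8 * b / 15 * 1 :=
      mul_le_mul h1 hα2 (sq_nonneg _) (by positivity)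
    have h3 : μ * ((16 * b / 15) ^ 2 * (16 * (1 + a) / 17) ^ 2) ≤ 1 * (8 * b / 15 * 1) :=
      mul_le_mul hμ1 h2 (by positivity) (by norm_num)
    have h4 := min_le_left (b / 1000) (1 - μ + e)
    linarith
  · push Not at hc
    set Y : ℝ := 1 - 16 * b / 15 with hY
    set X : ℝ := 1 - 16 * (1 + a) / 17 with hX
    have hY0 : 0 ≤ Y := by linarith
    have hY1 : Y ≤ 1 / 2 := by linarith
    have hX0 : 0 ≤ X := by linarith
    have hX1 : X ≤ 1 / 17 := by linarith
    have hb3 : 16 * b / 15 = 1 - Y := by rw [hY]; ring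
    have ha3 : 16 * (1 + a) / 17 = 1 - X := by rw [hX]; ring
    have hs : a + b = 1 - 15 / 16 * Y - 17 / 16 * X := by
      rw [hY, hX]; ring
    rw [hb3, ha3]
    have q1 : (1 - Y) ^ 2 ≤ 1 - 3 / 2 * Y := by nlinarith
    have q2 : (1 - X) ^ 2 ≤ 1 - 33 / 17 * X := by nlinarith
    have q3 : (1 - Y) ^ 2 * (1 - X) ^ 2 ≤ (1 - 3 / 2 * Y) * (1 - 33 / 17 * X) :=
      mul_le_mul q1 q2 (sq_nonneg _) (by linarith)
    have q4 : X * Y ≤ 1 / 17 * Y := mul_le_mul_of_nonneg_right hX1 hY0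
    have q5 : (1 - Y) ^ 2 * (1 - X) ^ 2 ≤ 1 - 13 / 10 * Y - 19 / 10 * X := by nlinarith
    set q : ℝ := (1 - Y) ^ 2 * (1 - X) ^ 2 with hq
    have h4 := min_le_right (b / 1000) (1 - μ + e)
    have h5 : μ * q = q - (1 - μ) * q := by ring
    have h6 : (1 - μ) * (1 - q) ≤ 1 / 1000 * (1 - q) := by
      have hq1 : 0 ≤ 1 - q := by nlinarith
      exact mul_le_mul_of_nonneg_right (by linarith) hq1
    have h7 : 1000 * e ≤ 15 / 16 * Y + 17 / 16 * X := by linarith
    nlinarith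

/-- Hall's condition -/
private theorem hm_cond {V Y : Type} [Fintype V] [Fintype Y] (A Φ : Finset V) (hΦ : Φ ⊆ A) (M : ℝ) (hM : 0 < M)
    (cV : (Fintype.card V : ℝ) = 2 * M) (cY : (Fintype.card Y : ℝ) = M) (cΦ : (Φ.card : ℝ) = M)
    (cA : (A.card : ℝ) = (1 + 1 / 16) * M) (C : Y → Finset V) (rare : Y → Prop)
    (row : Y → Slack.Lab A → ℝ)
    (k0 : ∀ y w, 0 ≤ row y w) (k1 : ∀ y, ¬ rare y → ∑ w, row y w = 1) (k3 : ∀ y, rare y → ∀ w, row y w = 0)
    (k2 : ∀ y w, row y w ≠ 0 → (w.1.1 : V) ∈ C y ∧ (w.1.2 : V) ∈ C y ∧ (w.2.1 : V) ∈ C y ∧ (w.2.2 : V) ∈ C y)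
    (τ ρ e μ : ℝ) (hρ0 : 0 < ρ) (he0 : 0 ≤ e) (he : 1000 * e ≤ τ) (he' : 1000 * e ≤ ρ)
    (hμ : 1 - 1 / 1000 ≤ μ) (hμ1 : μ ≤ 1)
    (hτ : ∀ v, τ * M ≤ (({y | v ∈ C y} : Finset Y).card : ℝ))
    (hρ : ∑ y ∈ univ.filter (fun y => ¬ rare y), (((C y).filter (· ∉ A)).card : ℝ)⁻¹ ^ 2 < (ρ * M)⁻¹)
    (hK : ∑ w, ((∑ y, row y w) - μ * M * (Fintype.card (Slack.Lab A) : ℝ)⁻¹) ^ 2 ≤
      (e * M) ^ 2 * (Fintype.card (Slack.Lab A) : ℝ)⁻¹)
    (hr : ∀ Z : Finset Y, (∀ y ∈ Z, rare y) → 1000 * Z.card ≤ ((Z.biUnion C).filter (· ∉ A)).card)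
    (Z : Finset Y) : Z.card ≤ (Z.biUnion fun y => (C y).filter (· ∉ Φ)).card := by
  -- cardinalities
  have cAc : ((Aᶜ : Finset V).card : ℝ) = 15 / 16 * M := by
    rw [Finset.card_compl, Nat.cast_sub (Finset.card_le_univ _), cV, cA]; ring
  have cBt : (Fintype.card {v // v ∉ A} : ℝ) = 15 / 16 * M := by
    have h1 : Fintype.card {v // v ∉ A} = (Aᶜ).card := by
      rw [Fintype.card_subtype]
      congr 1
      ext v; rw [Finset.mem_filter, Finset.mem_compl]
      exact ⟨fun h => h.2, fun h => ⟨Finset.mem_univ _, h⟩⟩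
    rw [h1, cAc]
  have cAt : (Fintype.card {v // v ∈ A} : ℝ) = 17 / 16 * M := by
    rw [Fintype.card_coe, cA]; ring
  have cW : (Fintype.card (Slack.Lab A) : ℝ) = (15 / 16 * M) ^ 2 * (17 / 16 * M) ^ 2 := by
    unfold Slack.Lab
    rw [Fintype.card_prod, Fintype.card_prod, Fintype.card_prod, Nat.cast_mul, Nat.cast_mul,
      Nat.cast_mul, cBt, cAt]
    ring
  have cW0 : (0 : ℝ) < Fintype.card (Slack.Lab A) := by rw [cW]; positivity
  -- the sets
  set T : Finset V := Z.biUnion C with hT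
  set NB : Finset V := T.filter (· ∉ A) with hNB
  set NA : Finset V := (T.filter (· ∈ A)).filter (· ∉ Φ) with hNA
  have hN : (Z.biUnion fun y => (C y).filter (· ∉ Φ)).card = NB.card + NA.card := by
    rw [← Finset.card_union_of_disjoint]
    · congr 1
      ext v
      simp only [hNB, hNA, hT, Finset.mem_biUnion, Finset.mem_filter, Finset.mem_union]
      constructor
      · rintro ⟨y, hy, hv, hvΦ⟩
        by_cases hA : v ∈ A
        · exact Or.inr ⟨⟨⟨y, hy, hv⟩, hA⟩, hvΦ⟩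
        · exact Or.inl ⟨⟨y, hy, hv⟩, hA⟩
      · rintro (⟨⟨y, hy, hv⟩, hA⟩ | ⟨⟨⟨y, hy, hv⟩, hA⟩, hvΦ⟩)
        · exact ⟨y, hy, hv, fun h => hA (hΦ h)⟩
        · exact ⟨y, hy, hv, hvΦ⟩
    · rw [Finset.disjoint_left]
      intro v h1 h2
      exact (Finset.mem_filter.1 h1).2 (Finset.mem_filter.1 (Finset.mem_filter.1 h2).1).2
  have hTA : ((T.filter (· ∈ A)).card : ℝ) ≤ M + NA.card := by
    have h1 : T.filter (· ∈ A) ⊆ Φ ∪ NA := by
      intro v hv
      rw [Finset.mem_union]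
      by_cases h : v ∈ Φ
      · exact Or.inl h
      · exact Or.inr (Finset.mem_filter.2 ⟨hv, h⟩)
    have h2 := (Finset.card_le_card h1).trans (Finset.card_union_le _ _)
    have h3 : ((T.filter (· ∈ A)).card : ℝ) ≤ (Φ.card : ℝ) + NA.card := by exact_mod_cast h2
    rwa [cΦ] at h3
  have hNA1 : (NA.card : ℝ) ≤ 1 / 16 * M := by
    have : NA.card ≤ (A \ Φ).card := Finset.card_le_card (fun v hv => by
      obtain ⟨h1, h2⟩ := Finset.mem_filter.1 hv
      exact Finset.mem_sdiff.2 ⟨(Finset.mem_filter.1 h1).2, h2⟩)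
    have h2 : (NA.card : ℝ) ≤ ((A \ Φ).card : ℝ) := by exact_mod_cast this
    rw [Finset.card_sdiff_of_subset hΦ, Nat.cast_sub (Finset.card_le_card hΦ), cΦ, cA] at h2
    linarith
  have hNB1 : (NB.card : ℝ) ≤ 15 / 16 * M := by
    rw [← cAc]
    have : NB.card ≤ (Aᶜ).card := Finset.card_le_card (fun v hv => by
      rw [Finset.mem_filter] at hv; exact Finset.mem_compl.2 hv.2)
    exact_mod_cast this
  -- rare members and the others
  set Zr : Finset Y := Z.filter rare with hZr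
  set Z0 : Finset Y := Z.filter (fun y => ¬ rare y) with hZ0
  have hZ : Zr.card + Z0.card = Z.card := Finset.card_filter_add_card_filter_not (s := Z) rare
  have hZr1 : 1000 * (Zr.card : ℝ) ≤ NB.card := by
    have h1 := hr Zr fun y hy => (Finset.mem_filter.1 hy).2
    have h2 : ((Zr.biUnion C).filter (· ∉ A)).card ≤ NB.card := by
      refine Finset.card_le_card (Finset.filter_subset_filter _ ?_)
      exact Finset.biUnion_subset_biUnion_of_subset_left _ (Finset.filter_subset _ _)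
    exact_mod_cast h1.trans h2
  have hsub : ∀ y ∈ Z0, 0 < ((C y).filter (· ∉ A)).card ∧ ((C y).filter (· ∉ A)).card ≤ NB.card := by
    intro y hy
    obtain ⟨hyZ, hyr⟩ := Finset.mem_filter.1 hy
    constructor
    · have : ∃ w, row y w ≠ 0 := by
        by_contra hc
        push Not at hc
        have := k1 y hyr
        rw [Finset.sum_eq_zero (fun w _ => hc w)] at this
        exact zero_ne_one this
      obtain ⟨w, hw⟩ := this
      exact Finset.card_pos.2 ⟨w.1.1, Finset.mem_filter.2 ⟨(k2 y w hw).1, w.1.1.2⟩⟩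
    · refine Finset.card_le_card (Finset.filter_subset_filter _ ?_)
      exact Finset.subset_biUnion_of_mem C hyZ
  by_contra hcon
  rw [hN] at hcon
  push Not at hcon
  have hcon' : (NB.card : ℝ) + NA.card < Zr.card + Z0.card := by
    rw [← hZ] at hcon
    exact_mod_cast hcon
  have hNA0 : (0 : ℝ) ≤ NA.card := Nat.cast_nonneg _
  have hNB0 : (0 : ℝ) ≤ NB.card := Nat.cast_nonneg _
  -- small sets
  have hlow : 999 / 1000 * ρ * M < NB.card := by
    by_contra hlo
    push Not at hlo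
    rcases hNB0.eq_or_lt with h0 | hpos
    · have h1 : Z0 = ∅ := by
        by_contra hne
        obtain ⟨y, hy⟩ := Finset.nonempty_iff_ne_empty.2 hne
        obtain ⟨h2, h3⟩ := hsub y hy
        have : NB.card = 0 := by exact_mod_cast h0.symm
        omega
      rw [h1, Finset.card_empty, Nat.cast_zero] at hcon'
      linarith
    · have h1 : (Z0.card : ℝ) * ((NB.card : ℝ)⁻¹) ^ 2 < (ρ * M)⁻¹ := by
        refine lt_of_le_of_lt ?_ hρ
        calc (Z0.card : ℝ) * ((NB.card : ℝ)⁻¹) ^ 2 = ∑ y ∈ Z0, ((NB.card : ℝ)⁻¹) ^ 2 := by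
              rw [Finset.sum_const, nsmul_eq_mul]
          _ ≤ ∑ y ∈ Z0, (((C y).filter (· ∉ A)).card : ℝ)⁻¹ ^ 2 := by
              refine Finset.sum_le_sum fun y hy => ?_
              obtain ⟨h2, h3⟩ := hsub y hy
              have h4 : (0 : ℝ) < ((C y).filter (· ∉ A)).card := by exact_mod_cast h2
              have h5 : (((C y).filter (· ∉ A)).card : ℝ) ≤ NB.card := by exact_mod_cast h3
              exact pow_le_pow_left₀ (inv_nonneg.2 hpos.le) (inv_anti₀ h4 h5) 2
          _ ≤ _ := by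
              refine Finset.sum_le_sum_of_subset_of_nonneg ?_ fun _ _ _ => sq_nonneg _
              intro y hy
              exact Finset.mem_filter.2 ⟨Finset.mem_univ _, (Finset.mem_filter.1 hy).2⟩
      have hρM : 0 < ρ * M := mul_pos hρ0 hM
      have h2 : (Z0.card : ℝ) * (ρ * M) < (NB.card : ℝ) ^ 2 := by
        have h3 := mul_lt_mul_of_pos_right h1 (mul_pos hρM (pow_pos hpos 2))
        have e1 : (Z0.card : ℝ) * ((NB.card : ℝ)⁻¹) ^ 2 * (ρ * M * (NB.card : ℝ) ^ 2) =
            (Z0.card : ℝ) * (ρ * M) := by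
          field_simp
        have e2 : (ρ * M)⁻¹ * (ρ * M * (NB.card : ℝ) ^ 2) = (NB.card : ℝ) ^ 2 := by
          field_simp
        rwa [e1, e2] at h3
      have h3 : (NB.card : ℝ) ^ 2 ≤ (999 / 1000 * NB.card) * (ρ * M) := by nlinarith
      have h4 : (Z0.card : ℝ) < 999 / 1000 * NB.card := lt_of_mul_lt_mul_right (h2.trans_le h3) hρM.le
      linarith
  -- almost full sets
  have hhigh : (NB.card : ℝ) + NA.card ≤ (1 - τ) * M := by
    have h1 : NB.card + NA.card < (Φᶜ : Finset V).card := by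
      have h2 : (Z.card : ℝ) ≤ M := by
        rw [← cY]
        exact_mod_cast Finset.card_le_univ _
      have h3 : ((Φᶜ : Finset V).card : ℝ) = M := by
        rw [Finset.card_compl, Nat.cast_sub (Finset.card_le_univ _), cV, cΦ]; ring
      have h4 : ((NB.card + NA.card : ℕ) : ℝ) < ((Φᶜ : Finset V).card : ℝ) := by
        rw [h3]
        refine lt_of_lt_of_le ?_ h2
        exact_mod_cast hcon
      exact_mod_cast h4
    have h2 : ∃ v ∈ (Φᶜ : Finset V), v ∉ Z.biUnion fun y => (C y).filter (· ∉ Φ) := by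
      by_contra hc
      push Not at hc
      have := Finset.card_le_card (show (Φᶜ : Finset V) ⊆ _ from hc)
      rw [hN] at this
      omega
    obtain ⟨v, hv, hvN⟩ := h2
    have h3 : Disjoint Z ({y | v ∈ C y} : Finset Y) := by
      rw [Finset.disjoint_left]
      intro y hy hy2
      apply hvN
      rw [Finset.mem_biUnion]
      exact ⟨y, hy, Finset.mem_filter.2 ⟨(Finset.mem_filter.1 hy2).2, Finset.mem_compl.1 hv⟩⟩
    have h4 : Z.card + ({y | v ∈ C y} : Finset Y).card ≤ Fintype.card Y := by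
      rw [← Finset.card_union_of_disjoint h3]
      exact Finset.card_le_univ _
    have h5 : (Z.card : ℝ) + (({y | v ∈ C y} : Finset Y).card : ℝ) ≤ M := by
      rw [← cY]
      exact_mod_cast h4
    have h6 := hτ v
    have h7 : (Z.card : ℝ) = Zr.card + Z0.card := by rw [← hZ]; push_cast; ring
    linarith
  -- the number of rare vertices
  have hrow : ∀ s : Finset (Slack.Lab A), |∑ w ∈ s, (∑ y, row y w) -
      s.card * (μ * M * (Fintype.card (Slack.Lab A) : ℝ)⁻¹)| ≤ e * M :=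
    hm_cs (fun w => ∑ y, row y w) _ (e * M) (mul_nonneg he0 hM.le) hK
  have hZr2 : (Zr.card : ℝ) ≤ (1 - μ + e) * M := by
    have h1 := hrow univ
    rw [Finset.sum_comm, Finset.card_univ] at h1
    have h2 : ∑ y, ∑ w, row y w = ((univ.filter fun y : Y => ¬ rare y).card : ℝ) := by
      rw [Finset.card_filter, Nat.cast_sum]
      refine Finset.sum_congr rfl fun y _ => ?_
      by_cases hy : rare y
      · rw [if_neg (not_not.2 hy), Finset.sum_eq_zero fun w _ => k3 y hy w]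
        simp
      · rw [if_pos hy, k1 y hy]
        simp
    have h3 : (Fintype.card (Slack.Lab A) : ℝ) * (μ * M * (Fintype.card (Slack.Lab A) : ℝ)⁻¹) = μ * M := by
      field_simp
    rw [h2, h3] at h1
    have h4 : (Zr.card : ℝ) + ((univ.filter fun y : Y => ¬ rare y).card : ℝ) ≤ M := by
      rw [← cY]
      have h5 : Zr.card ≤ (univ.filter fun y : Y => rare y).card :=
        Finset.card_le_card fun y hy => Finset.mem_filter.2 ⟨Finset.mem_univ _, (Finset.mem_filter.1 hy).2⟩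
      have h6 : (univ.filter fun y : Y => rare y).card + (univ.filter fun y : Y => ¬ rare y).card =
          (univ : Finset Y).card := Finset.card_filter_add_card_filter_not (s := (univ : Finset Y)) rare
      rw [Finset.card_univ] at h6
      have : Zr.card + (univ.filter fun y : Y => ¬ rare y).card ≤ Fintype.card Y := by omega
      exact_mod_cast this
    have h5 := (abs_le.1 h1).1
    linarith
  -- the number of the others
  have hZ02 : (Z0.card : ℝ) ≤ (NB.card : ℝ) ^ 2 * (M + NA.card) ^ 2 *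
      (μ * M * (Fintype.card (Slack.Lab A) : ℝ)⁻¹) + e * M := by
    set s : Finset (Slack.Lab A) := (univ : Finset (Slack.Lab A)).filter fun w => (w.1.1 : V) ∈ T ∧
      (w.1.2 : V) ∈ T ∧ (w.2.1 : V) ∈ T ∧ (w.2.2 : V) ∈ T with hs
    have h1 := (abs_le.1 (hrow s)).2
    have h2 : (Z0.card : ℝ) ≤ ∑ w ∈ s, ∑ y, row y w := by
      calc (Z0.card : ℝ) = ∑ y ∈ Z0, ∑ w, row y w := by
            rw [Finset.sum_congr rfl fun y hy => k1 y (Finset.mem_filter.1 hy).2, Finset.sum_const,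
              nsmul_eq_mul, mul_one]
        _ = ∑ y ∈ Z0, ∑ w ∈ s, row y w := by
            refine Finset.sum_congr rfl fun y hy => ?_
            symm
            refine Finset.sum_subset (Finset.subset_univ _) fun w _ hw => ?_
            by_contra hne
            obtain ⟨g1, g2, g3, g4⟩ := k2 y w hne
            have hyT : C y ⊆ T := Finset.subset_biUnion_of_mem C (Finset.mem_filter.1 hy).1
            exact hw (Finset.mem_filter.2 ⟨Finset.mem_univ _, hyT g1, hyT g2, hyT g3, hyT g4⟩)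
        _ = ∑ w ∈ s, ∑ y ∈ Z0, row y w := Finset.sum_comm
        _ ≤ _ := Finset.sum_le_sum fun w _ =>
            Finset.sum_le_sum_of_subset_of_nonneg (Finset.subset_univ _) fun y _ _ => k0 y w
    have h3 : (s.card : ℝ) ≤ (NB.card : ℝ) ^ 2 * (M + NA.card) ^ 2 := by
      rw [hs, hm_card A T]
      refine mul_le_mul_of_nonneg_left ?_ (sq_nonneg _)
      exact pow_le_pow_left₀ (Nat.cast_nonneg _) hTA 2
    have h4 : 0 ≤ μ * M * (Fintype.card (Slack.Lab A) : ℝ)⁻¹ :=
      mul_nonneg (mul_nonneg (by linarith) hM.le) (inv_nonneg.2 cW0.le)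
    have h5 := mul_le_mul_of_nonneg_right h3 h4
    linarith
  -- conclusion
  have hfin := hm_elem (NA.card / M) (NB.card / M) μ e τ ρ (div_nonneg hNA0 hM.le)
    (by rw [div_le_iff₀ hM]; exact hNA1) (div_nonneg hNB0 hM.le) (by rw [div_le_iff₀ hM]; exact hNB1)
    hμ hμ1 he he' (by rw [le_div_iff₀ hM]; exact hlow.le)
    (by rw [← add_div, div_le_iff₀ hM]; linarith)
  have hmul := mul_le_mul_of_nonneg_right hfin hM.le
  have e1 : (NA.card / M + NB.card / M) * M = (NB.card : ℝ) + NA.card := by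
    field_simp
    ring
  have e2 : (min ((NB.card : ℝ) / M / 1000) (1 - μ + e) +
      μ * ((16 * ((NB.card : ℝ) / M) / 15) ^ 2 * (16 * (1 + (NA.card : ℝ) / M) / 17) ^ 2) + e) * M =
      min ((NB.card : ℝ) / M / 1000) (1 - μ + e) * M + ((NB.card : ℝ) ^ 2 * (M + NA.card) ^ 2 *
      (μ * M * (Fintype.card (Slack.Lab A) : ℝ)⁻¹) + e * M) := by
    rw [cW]
    generalize min ((NB.card : ℝ) / M / 1000) (1 - μ + e) = z
    field_simp
    ring
  have e3 : (Zr.card : ℝ) ≤ min ((NB.card : ℝ) / M / 1000) (1 - μ + e) * M := by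
    rw [min_mul_of_nonneg _ _ hM.le]
    refine le_min ?_ hZr2
    have : (NB.card : ℝ) / M / 1000 * M = NB.card / 1000 := by field_simp
    rw [this]
    linarith
  rw [e1, e2] at hmul
  linarith

theorem main_H : S_H := by
  intro V Y _ _ A Φ hΦ M hM cV cY cΦ cA C rare row k0 k1 k3 k2 τ ρ e μ _ hρ0 he0 he he' hμ hμ1 hτ hρ hK hr
  obtain ⟨f, hf, hfC⟩ := (Finset.all_card_le_biUnion_card_iff_exists_injective
    (fun y : Y => (C y).filter (· ∉ Φ))).1
      (hm_cond A Φ hΦ M hM cV cY cΦ cA C rare row k0 k1 k3 k2 τ ρ e μ hρ0 he0 he he' hμ hμ1 hτ hρ hK hr)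
  exact ⟨f, hf, fun y => ⟨(Finset.mem_filter.1 (hfC y)).1, (Finset.mem_filter.1 (hfC y)).2⟩⟩

end Pool.Agent.Lib.MP_33d9ce_co.Cst
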